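import Pool.Agent.Lib.MP_528c50_co.Cs.CycMain
import Pool.Agent.Lib.MP_528c50_co.Cs2.Main

/-!
# Endpoint reconstruction when the blocks of the core have short irredundant sequences
-/

namespace Pool.Agent.Lib.MP_528c50_co.Old.BlockSymmetry

/-- The 2-core: the union of all vertex sets in which every vertex has two neighbours. -/
def core {V : Type} (G : SimpleGraph V) : Set V :=
  {v | ∃ S : Set V, v ∈ S ∧ ∀ u ∈ S, ∃ a ∈ S, ∃ b ∈ S, a ≠ b ∧ G.Adj u a ∧ G.Adj u b}

/-- No third vertex separates `x` from `y`: for every other vertex `w` some walk from `x` to `y`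
avoids `w`. -/
def Insep {K : Type} (X : SimpleGraph K) (x y : K) : Prop :=
  ∀ w, w ≠ x → w ≠ y → ∃ p : X.Walk x y, w ∉ p.support

/-- Let every vertex of `G` be joined to the core, and let every sequence of pairwise inseparable
vertices of the core, each of which is moved by an automorphism of the core that fixes the earlier
ones, have length at most `l`. If `G` has at least `(4 l (log₂ l + 4) + 2) ^ 2` endpoints, then `G`
is determined by its endpoint deck. -/
theorem result (l n m : ℕ) (G : SimpleGraph (Fin n)) (H : SimpleGraph (Fin m))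
    (hc : ∀ v, ∃ x ∈ core G, G.Reachable v x)
    (hl : ∀ (r : ℕ) (x : Fin r → core G), (∀ i j, Insep (G.induce (core G)) (x i) (x j)) →
      (∀ i, ∃ g : G.induce (core G) ≃g G.induce (core G),
        (∀ j < i, g (x j) = x j) ∧ g (x i) ≠ x i) → r ≤ l)
    (hk : (4 * l * (Nat.log 2 l + 4) + 2) ^ 2 ≤ {v | ∃! w, G.Adj v w}.ncard)
    (σ : {v // ∃! w, G.Adj v w} ≃ {v // ∃! w, H.Adj v w})
    (hσ : ∀ v, Nonempty (G.induce {v.1}ᶜ ≃g H.induce {(σ v).1}ᶜ)) : Nonempty (G ≃g H) :=
  Pool.Agent.Lib.MP_528c50_co.Cs.main₂ l hc hl hk σ hσ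

/-- The case in which every block of the core has at most `l` vertices. -/
theorem smallBlocks (l n m : ℕ) (G : SimpleGraph (Fin n)) (H : SimpleGraph (Fin m))
    (hc : ∀ v, ∃ x ∈ core G, G.Reachable v x)
    (hl : ∀ S : Finset (core G), (∀ x ∈ S, ∀ y ∈ S, Insep (G.induce (core G)) x y) → S.card ≤ l)
    (hk : (4 * l * (Nat.log 2 l + 4) + 2) ^ 2 ≤ {v | ∃! w, G.Adj v w}.ncard)
    (σ : {v // ∃! w, G.Adj v w} ≃ {v // ∃! w, H.Adj v w})
    (hσ : ∀ v, Nonempty (G.induce {v.1}ᶜ ≃g H.induce {(σ v).1}ᶜ)) : Nonempty (G ≃g H) := by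
  classical
  refine result l n m G H hc (fun r x hi hx => ?_) hk σ hσ
  have key : ∀ i j, j < i → x j ≠ x i := fun i j h e => by
    obtain ⟨g, a, b⟩ := hx i
    exact b (e ▸ a j h)
  have hinj : Function.Injective x := fun i j e => by
    rcases lt_trichotomy i j with h | h | h
    · exact absurd e (key j i h)
    · exact h
    · exact absurd e.symm (key i j h)
  have := hl (Finset.univ.image x) (by
    intro a ha b hb
    obtain ⟨i, -, rfl⟩ := Finset.mem_image.1 ha
    obtain ⟨j, -, rfl⟩ := Finset.mem_image.1 hb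
    exact hi i j)
  rwa [Finset.card_image_of_injective _ hinj, Finset.card_univ, Fintype.card_fin] at this

/-- The case of connected graphs with a cycle and cyclomatic number at most `c`. -/
theorem cyclomatic (c n m : ℕ) (G : SimpleGraph (Fin n)) (H : SimpleGraph (Fin m))
    (hc : G.Connected) (hn : ¬ G.IsAcyclic) (he : G.edgeSet.ncard + 1 ≤ n + c)
    (hk : (4 * (6 * c - 4) * (Nat.log 2 (6 * c - 4) + 4) + 2) ^ 2 ≤ {v | ∃! w, G.Adj v w}.ncard)
    (σ : {v // ∃! w, G.Adj v w} ≃ {v // ∃! w, H.Adj v w})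
    (hσ : ∀ v, Nonempty (G.induce {v.1}ᶜ ≃g H.induce {(σ v).1}ᶜ)) : Nonempty (G ≃g H) :=
  Pool.Agent.Lib.MP_528c50_co.Cs.cyc_main c hc hn (by simpa using he) hk σ hσ

end Pool.Agent.Lib.MP_528c50_co.Old.BlockSymmetry
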