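import Pool.Agent.Lib.MP_528c50_co.Cs.CycMain

/-!
# Endpoint reconstruction when the automorphism group of the core has short irredundant bases
-/

namespace Pool.Agent.Lib.MP_528c50_co.Old.CoreSymmetry

/-- The 2-core: the union of all vertex sets in which every vertex has two neighbours. -/
def core {V : Type} (G : SimpleGraph V) : Set V :=
  {v | ∃ S : Set V, v ∈ S ∧ ∀ u ∈ S, ∃ a ∈ S, ∃ b ∈ S, a ≠ b ∧ G.Adj u a ∧ G.Adj u b}

/-- Let every vertex of `G` be joined to the core, and let every sequence of vertices of the core,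
each of which is moved by an automorphism of the core that fixes the earlier ones, have length at
most `l`. If `G` has at least `(4 l (log₂ l + 4) + 2) ^ 2` endpoints, then `G` is determined by its
endpoint deck. -/
theorem result (l n m : ℕ) (G : SimpleGraph (Fin n)) (H : SimpleGraph (Fin m))
    (hc : ∀ v, ∃ x ∈ core G, G.Reachable v x)
    (hl : ∀ (r : ℕ) (x : Fin r → core G), (∀ i, ∃ g : G.induce (core G) ≃g G.induce (core G),
      (∀ j < i, g (x j) = x j) ∧ g (x i) ≠ x i) → r ≤ l)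
    (hk : (4 * l * (Nat.log 2 l + 4) + 2) ^ 2 ≤ {v | ∃! w, G.Adj v w}.ncard)
    (σ : {v // ∃! w, G.Adj v w} ≃ {v // ∃! w, H.Adj v w})
    (hσ : ∀ v, Nonempty (G.induce {v.1}ᶜ ≃g H.induce {(σ v).1}ᶜ)) : Nonempty (G ≃g H) :=
  Pool.Agent.Lib.MP_528c50_co.Cs.main l hc hl hk σ hσ

/-- The case of connected graphs with a cycle and cyclomatic number at most `c`. -/
theorem cyclomatic (c n m : ℕ) (G : SimpleGraph (Fin n)) (H : SimpleGraph (Fin m))
    (hc : G.Connected) (hn : ¬ G.IsAcyclic) (he : G.edgeSet.ncard + 1 ≤ n + c)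
    (hk : (4 * (6 * c - 4) * (Nat.log 2 (6 * c - 4) + 4) + 2) ^ 2 ≤ {v | ∃! w, G.Adj v w}.ncard)
    (σ : {v // ∃! w, G.Adj v w} ≃ {v // ∃! w, H.Adj v w})
    (hσ : ∀ v, Nonempty (G.induce {v.1}ᶜ ≃g H.induce {(σ v).1}ᶜ)) : Nonempty (G ≃g H) :=
  Pool.Agent.Lib.MP_528c50_co.Cs.cyc_main c hc hn (by simpa using he) hk σ hσ

end Pool.Agent.Lib.MP_528c50_co.Old.CoreSymmetry
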